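import Mathlib

/-!
# MP_4e4764_co, Q1: temporal 4-colourings of bipartite temporal graphs with grow pace 1

Every temporal graph with grow pace 1 all of whose snapshots are bipartite has a temporal
4-colouring.

Proof idea. One constructs maps `σ_j : V → Bool`; the colour of `v` at time `j` is the pair of
`σ_{j-1}(v)` and `σ_j(v)`, ordered by the parity of `j`. If `G_j ∪ G_{j+1}` is bipartite then `σ_j` is
a proper 2-colouring of it. Otherwise the edges of `G_j ∪ G_{j+1}` that `σ_j` violates all contain one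
vertex; they are not violated by `σ_{j-1}` and `σ_{j+1}`, and these two maps agree on their ends.
-/

set_option autoImplicit false

namespace Pool.Agent.Results.MP_4e4764_co.FourColours

open Classical

variable {V : Type}

/-- Grow pace 1 for the snapshots `G 0, ..., G (T - 1)`: between consecutive snapshots at most one
edge is added and at most one edge is removed. -/
def GrowPaceOne (T : ℕ) (G : ℕ → SimpleGraph V) : Prop :=
  ∀ j, j + 1 < T → ((G (j + 1)).edgeSet \ (G j).edgeSet).ncard ≤ 1 ∧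
    ((G j).edgeSet \ (G (j + 1)).edgeSet).ncard ≤ 1

/-- The colourings `c` and `c'` are compatible for the consecutive snapshots `G` and `G'`. -/
def Compatible {k : ℕ} (G G' : SimpleGraph V) (c c' : V → Fin k) : Prop :=
  ∀ x y, (G ⊔ G').Adj x y → c x ≠ c y ∧ c x ≠ c' y ∧ c' x ≠ c y ∧ c' x ≠ c' y

/-- `c 0, ..., c (T - 1)` is a temporal `k`-colouring of the snapshots `G 0, ..., G (T - 1)`. -/
def IsTemporalColouring (T k : ℕ) (G : ℕ → SimpleGraph V) (c : ℕ → V → Fin k) : Prop :=
  (∀ j, j < T → ∀ x y, (G j).Adj x y → c j x ≠ c j y) ∧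
    ∀ j, j + 1 < T → Compatible (G j) (G (j + 1)) (c j) (c (j + 1))

/-! ### Bipartite graphs and bad steps -/

/-- proper 2-colourings with values in `Bool` -/
def Pr (G : SimpleGraph V) (τ : V → Bool) : Prop := ∀ x y, G.Adj x y → τ x ≠ τ y

/-- bipartite -/
def Bip (G : SimpleGraph V) : Prop := ∃ τ : V → Bool, Pr G τ

/-- at most one edge of `G` is not in `G'` -/
def One (G G' : SimpleGraph V) : Prop :=
  ∀ x y x' y', G.Adj x y → ¬ G'.Adj x y → G.Adj x' y' → ¬ G'.Adj x' y' →
    (x = x' ∧ y = y') ∨ (x = y' ∧ y = x')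

/-- flip `τ` on `X` -/
noncomputable def fl (X : Set V) (τ : V → Bool) (v : V) : Bool := if v ∈ X then !τ v else τ v

lemma fl_same {X : Set V} {τ : V → Bool} {x y : V} (h : x ∈ X ↔ y ∈ X) :
    fl X τ x = fl X τ y ↔ τ x = τ y := by
  unfold fl
  by_cases hx : x ∈ X
  · rw [if_pos hx, if_pos (h.1 hx)]
    cases τ x <;> cases τ y <;> simp
  · rw [if_neg hx, if_neg (fun hy => hx (h.2 hy))]

lemma fl_diff {X : Set V} {τ : V → Bool} {x y : V} (hx : x ∈ X) (hy : y ∉ X) :
    fl X τ x = fl X τ y ↔ τ x ≠ τ y := by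
  unfold fl
  rw [if_pos hx, if_neg hy]
  cases τ x <;> cases τ y <;> simp

lemma fl_diff' {X : Set V} {τ : V → Bool} {x y : V} (hx : x ∉ X) (hy : y ∈ X) :
    fl X τ x = fl X τ y ↔ τ x ≠ τ y := by
  rw [eq_comm, fl_diff hy hx, ne_comm]

/-- The structure of a step for which the union of the two snapshots is not bipartite: the edge `ab`
is removed, `cd` is added, `τ` is a proper colouring of the first graph, and `B` is closed in the
intersection of the two graphs. -/
structure Bad (G G' : SimpleGraph V) (a b c d : V) (τ : V → Bool) (B : Set V) : Prop where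
  hab : G.Adj a b
  hab' : ¬ G'.Adj a b
  hcd : G'.Adj c d
  hcd' : ¬ G.Adj c d
  hτ : Pr G τ
  hτcd : τ c = τ d
  hac : τ a ≠ τ c
  aB : a ∉ B
  cB : c ∉ B
  bB : b ∈ B
  dB : d ∈ B
  cl : ∀ x y, G.Adj x y → G'.Adj x y → (x ∈ B ↔ y ∈ B)
  un : ∀ x y, G.Adj x y → ¬ G'.Adj x y → (x = a ∧ y = b) ∨ (x = b ∧ y = a)
  un' : ∀ x y, G'.Adj x y → ¬ G.Adj x y → (x = c ∧ y = d) ∨ (x = d ∧ y = c)

lemma exists_bad {G G' : SimpleGraph V} (hG : Bip G) (hG' : Bip G') (h1 : One G G')
    (h2 : One G' G) (hbad : ¬ Bip (G ⊔ G')) : ∃ a b c d τ B, Bad G G' a b c d τ B := by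
  obtain ⟨τ, hτ⟩ := hG
  obtain ⟨ρ, hρ⟩ := hG'
  have e1 : ∃ c d, G'.Adj c d ∧ τ c = τ d := by
    by_contra hcon
    push Not at hcon
    exact hbad ⟨τ, fun x y h => h.elim (hτ x y) (hcon x y)⟩
  have e2 : ∃ a b, G.Adj a b ∧ ρ a = ρ b := by
    by_contra hcon
    push Not at hcon
    exact hbad ⟨ρ, fun x y h => h.elim (hcon x y) (hρ x y)⟩
  obtain ⟨c, d, hcd, hcd2⟩ := e1
  obtain ⟨a, b, hab, hab2⟩ := e2
  have hab' : ¬ G'.Adj a b := fun h => hρ a b h hab2
  have hcd' : ¬ G.Adj c d := fun h => hτ c d h hcd2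
  have ta := hτ a b hab
  have rc := hρ c d hcd
  let B : Set V := {v | xor (τ v) (ρ v) = xor (τ b) (ρ b)}
  have hB : ∀ v, v ∈ B ↔ xor (τ v) (ρ v) = xor (τ b) (ρ b) := fun v => Iff.rfl
  have hcl : ∀ x y, G.Adj x y → G'.Adj x y → (x ∈ B ↔ y ∈ B) := by
    intro x y h h'
    have h3 := hτ x y h
    have h4 := hρ x y h'
    have : xor (τ x) (ρ x) = xor (τ y) (ρ y) := by
      revert h3 h4
      cases τ x <;> cases τ y <;> cases ρ x <;> cases ρ y <;> simp
    rw [hB, hB, this]
  have ha : a ∉ B := by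
    rw [hB]
    revert ta hab2
    cases τ a <;> cases τ b <;> cases ρ a <;> cases ρ b <;> simp
  have hb : b ∈ B := by rw [hB]
  have hcdB : (c ∈ B ∧ d ∉ B) ∨ (c ∉ B ∧ d ∈ B) := by
    rw [hB, hB]
    revert rc hcd2
    cases τ c <;> cases τ d <;> cases ρ c <;> cases ρ d <;> cases τ b <;> cases ρ b <;> simp
  -- choose the names of `c` and `d` such that `d` is in `B`
  obtain ⟨c, d, hcd, hcd', hcd2, hcB, hdB⟩ : ∃ c d, G'.Adj c d ∧ ¬ G.Adj c d ∧ τ c = τ d ∧
      c ∉ B ∧ d ∈ B := by
    rcases hcdB with ⟨h, h'⟩ | ⟨h, h'⟩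
    · exact ⟨d, c, hcd.symm, fun hh => hcd' hh.symm, hcd2.symm, h', h⟩
    · exact ⟨c, d, hcd, hcd', hcd2, h, h'⟩
  by_cases hac : τ a = τ c
  · -- exchange the two sides
    refine ⟨b, a, d, c, τ, Bᶜ, hab.symm, fun h => hab' h.symm, hcd.symm, fun h => hcd' h.symm, hτ,
      hcd2.symm, ?_, fun h => h hb, fun h => h hdB, ha, hcB, ?_, ?_, ?_⟩
    · rw [← hcd2, ← hac]
      exact ta.symm
    · intro x y h h'
      have := hcl x y h h'
      simp only [Set.mem_compl_iff]
      tauto
    · intro x y h h'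
      have := h1 x y a b h h' hab hab'
      tauto
    · intro x y h h'
      have := h2 x y c d h h' hcd hcd'
      tauto
  · refine ⟨a, b, c, d, τ, B, hab, hab', hcd, hcd', hτ, hcd2, hac, ha, hcB, hb, hdB, hcl, ?_, ?_⟩
    · intro x y h h'
      exact h1 x y a b h h' hab hab'
    · intro x y h h'
      exact h2 x y c d h h' hcd hcd'

/-- Closed subsets of `B` that contain `b` contain `d`. -/
lemma Bad.conn {G G' : SimpleGraph V} {a b c d : V} {τ : V → Bool} {B : Set V}
    (h : Bad G G' a b c d τ B) (hbad : ¬ Bip (G ⊔ G')) (Q : Set V)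
    (hQ : ∀ x y, G.Adj x y → G'.Adj x y → x ∈ B → y ∈ B → (x ∈ Q ↔ y ∈ Q)) (hb : b ∈ Q) : d ∈ Q := by
  by_contra hd
  apply hbad
  let X : Set V := {v | v ∈ B ∧ v ∉ Q}
  refine ⟨fl X τ, ?_⟩
  intro x y hxy
  by_cases hx : G.Adj x y
  · by_cases hy : G'.Adj x y
    · have h1 := h.cl x y hx hy
      have h2 := hQ x y hx hy
      rw [Ne, fl_same]
      · exact h.hτ x y hx
      · simp only [X, Set.mem_ofPred_eq]
        tauto
    · have hτ := h.hτ x y hx
      have hxyab := h.un x y hx hy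
      have ha := h.aB
      rw [Ne, fl_same]
      · exact hτ
      · simp only [X, Set.mem_ofPred_eq]
        rcases hxyab with ⟨rfl, rfl⟩ | ⟨rfl, rfl⟩ <;> tauto
  · have hy : G'.Adj x y := by
      rcases hxy with h' | h'
      · exact absurd h' hx
      · exact h'
    have hc := h.cB
    have hdB := h.dB
    have hcd := h.hτcd
    have hcX : c ∉ X := fun hh => hc hh.1
    have hdX : d ∈ X := ⟨hdB, hd⟩
    rcases h.un' x y hy hx with ⟨rfl, rfl⟩ | ⟨rfl, rfl⟩
    · rw [Ne, fl_diff' hcX hdX]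
      exact fun hh => hh hcd
    · rw [Ne, fl_diff hdX hcX]
      exact fun hh => hh hcd.symm

/-! ### The step -/

/-- the conditions on `t` relative to `s` and the graphs `G0, G1, G2` -/
structure Next (G0 G1 G2 : SimpleGraph V) (s t : V → Bool) : Prop where
  sep : ∀ x y, (G0 ⊔ G1).Adj x y → t x = t y → s x ≠ s y ∧ G1.Adj x y
  cen : ∃ z, ∀ x y, G1.Adj x y → t x = t y → x = z ∨ y = z
  fut : ¬ Bip (G1 ⊔ G2) → ∀ u v, G1.Adj u v → ¬ G2.Adj u v → t u = t v →
    ∀ x y, G1.Adj x y → t x = t y → (x = u ∧ y = v) ∨ (x = v ∧ y = u)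

/-- The set used to keep the next removed edge `yw` out of the violated set. -/
lemma exists_Q {G0 G1 G2 : SimpleGraph V} (hB1 : Bip G1) (hB2 : Bip G2) (h12 : One G1 G2)
    (h21 : One G2 G1) (y : V) :
    ∃ (Q : Set V) (w : V), y ∉ Q ∧ (∀ x z, G1.Adj x z → x ∈ Q → z ∉ Q → x = w ∧ z = y) ∧
      (¬ Bip (G1 ⊔ G2) → ∀ u v, G1.Adj u v → ¬ G2.Adj u v → G0.Adj u v → u = y → v ∈ Q ∧ v = w) := by
  by_cases hbad : Bip (G1 ⊔ G2)
  · exact ⟨∅, y, by simp, fun x z _ h => by simp at h, fun h => absurd hbad h⟩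
  obtain ⟨a, b, c, d, τ, B, h⟩ := exists_bad hB1 hB2 h12 h21 hbad
  by_cases hya : y = a
  · refine ⟨B, b, by rw [hya]; exact h.aB, ?_, ?_⟩
    · intro x z hxz hx hz
      by_cases h2 : G2.Adj x z
      · exact absurd ((h.cl x z hxz h2).1 hx) hz
      · rcases h.un x z hxz h2 with ⟨rfl, rfl⟩ | ⟨rfl, rfl⟩
        · exact absurd hx h.aB
        · exact ⟨rfl, hya.symm⟩
    · rintro _ u v huv huv' _ rfl
      rcases h.un u v huv huv' with ⟨h1, rfl⟩ | ⟨h1, h2⟩
      · exact ⟨h.bB, rfl⟩
      · exact absurd (h2.trans hya.symm) huv.ne'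
  by_cases hyb : y = b
  · refine ⟨Bᶜ, a, by rw [hyb]; exact fun hh => hh h.bB, ?_, ?_⟩
    · intro x z hxz hx hz
      simp only [Set.mem_compl_iff, not_not] at hx hz
      by_cases h2 : G2.Adj x z
      · exact absurd ((h.cl x z hxz h2).2 hz) hx
      · rcases h.un x z hxz h2 with ⟨rfl, rfl⟩ | ⟨rfl, rfl⟩
        · exact ⟨rfl, hyb.symm⟩
        · exact absurd h.bB hx
    · rintro _ u v huv huv' _ rfl
      rcases h.un u v huv huv' with ⟨h1, h2⟩ | ⟨h1, rfl⟩
      · exact absurd (h2.trans hyb.symm) huv.ne'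
      · exact ⟨h.aB, rfl⟩
  · refine ⟨∅, y, by simp, fun x z _ hh => by simp at hh, ?_⟩
    rintro _ u v huv huv' _ rfl
    rcases h.un u v huv huv' with ⟨h1, _⟩ | ⟨h1, _⟩
    · exact absurd h1 hya
    · exact absurd h1 hyb

/-- The construction with the vertex `c`. -/
lemma step_c {G0 G1 G2 : SimpleGraph V} (hB1 : Bip G1) (hB2 : Bip G2) (h12 : One G1 G2)
    (h21 : One G2 G1) {a b c d : V} {τ : V → Bool} {B : Set V} (h : Bad G0 G1 a b c d τ B)
    (s : V → Bool) (hs : ∀ p, G0.Adj c p → G1.Adj c p → s c ≠ s p) :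
    ∃ t, Next G0 G1 G2 s t := by
  obtain ⟨Q, w, hcQ, hQ, hfut⟩ := exists_Q (G0 := G0) hB1 hB2 h12 h21 c
  have hca : c ≠ a := by
    rintro rfl
    exact h.hac rfl
  have hcb : c ≠ b := by
    rintro rfl
    exact h.cB h.bB
  have hcd : c ≠ d := h.hcd.ne
  by_cases haQ : a ∈ Q
  · -- the violated set is the single edge `cw`
    let X : Set V := {v | v ∉ B ∧ v ∉ Q}
    have key : ∀ x y, (G0 ⊔ G1).Adj x y → fl X τ x = fl X τ y →
        G0.Adj x y ∧ G1.Adj x y ∧ ((x = c ∧ y = w) ∨ (x = w ∧ y = c)) := by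
      intro x y hxy ht
      by_cases hx : G0.Adj x y
      · by_cases hy : G1.Adj x y
        · refine ⟨hx, hy, ?_⟩
          have hcl := h.cl x y hx hy
          have hτ := h.hτ x y hx
          by_cases hxX : x ∈ X <;> by_cases hyX : y ∈ X
          · rw [fl_same (iff_of_true hxX hyX)] at ht
            exact absurd ht hτ
          · have hyQ : y ∈ Q := by
              by_contra hyQ
              exact hyX ⟨fun hyB => hxX.1 (hcl.2 hyB), hyQ⟩
            have := hQ y x hy.symm hyQ hxX.2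
            tauto
          · have hxQ : x ∈ Q := by
              by_contra hxQ
              exact hxX ⟨fun hxB => hyX.1 (hcl.1 hxB), hxQ⟩
            have := hQ x y hy hxQ hyX.2
            tauto
          · rw [fl_same (iff_of_false hxX hyX)] at ht
            exact absurd ht hτ
        · exfalso
          have hτ := h.hτ x y hx
          have ha : a ∉ X := fun hh => hh.2 haQ
          have hb : b ∉ X := fun hh => hh.1 h.bB
          rcases h.un x y hx hy with ⟨rfl, rfl⟩ | ⟨rfl, rfl⟩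
          · rw [fl_same (iff_of_false ha hb)] at ht
            exact hτ ht
          · rw [fl_same (iff_of_false hb ha)] at ht
            exact hτ ht
      · exfalso
        have hy : G1.Adj x y := by
          rcases hxy with h' | h'
          · exact absurd h' hx
          · exact h'
        have hcX : c ∈ X := ⟨h.cB, hcQ⟩
        have hdX : d ∉ X := fun hh => hh.1 h.dB
        have hτcd := h.hτcd
        rcases h.un' x y hy hx with ⟨rfl, rfl⟩ | ⟨rfl, rfl⟩
        · rw [fl_diff hcX hdX] at ht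
          exact ht hτcd
        · rw [fl_diff' hdX hcX] at ht
          exact ht hτcd.symm
    refine ⟨fl X τ, ?_, ?_, ?_⟩
    · intro x y hxy ht
      obtain ⟨h0, h1, h2⟩ := key x y hxy ht
      refine ⟨?_, h1⟩
      rcases h2 with ⟨rfl, rfl⟩ | ⟨rfl, rfl⟩
      · exact hs _ h0 h1
      · exact (hs _ h0.symm h1.symm).symm
    · refine ⟨c, ?_⟩
      intro x y hxy ht
      obtain ⟨_, _, h2⟩ := key x y (Or.inr hxy) ht
      tauto
    · intro _ u v huv _ ht x y hxy ht'
      obtain ⟨_, _, h2⟩ := key x y (Or.inr hxy) ht'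
      obtain ⟨_, _, h3⟩ := key u v (Or.inr huv) ht
      rcases h2 with ⟨rfl, rfl⟩ | ⟨rfl, rfl⟩ <;> rcases h3 with ⟨rfl, rfl⟩ | ⟨rfl, rfl⟩ <;> tauto
  · -- the violated edges are those at `c`
    let X : Set V := {v | v = c ∨ (v ∈ Q ∧ v ∉ B)}
    have key : ∀ x y, (G0 ⊔ G1).Adj x y → fl X τ x = fl X τ y →
        G0.Adj x y ∧ G1.Adj x y ∧ ((x = c ∧ y ∉ X) ∨ (x ∉ X ∧ y = c)) := by
      intro x y hxy ht
      by_cases hx : G0.Adj x y
      · by_cases hy : G1.Adj x y
        · refine ⟨hx, hy, ?_⟩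
          have hcl := h.cl x y hx hy
          have hτ := h.hτ x y hx
          by_cases hxX : x ∈ X <;> by_cases hyX : y ∈ X
          · rw [fl_same (iff_of_true hxX hyX)] at ht
            exact absurd ht hτ
          · rcases hxX with hxX | hxX
            · exact Or.inl ⟨hxX, hyX⟩
            · exfalso
              by_cases hyQ : y ∈ Q
              · exact hyX (Or.inr ⟨hyQ, fun hyB => hxX.2 (hcl.2 hyB)⟩)
              · exact hyX (Or.inl (hQ x y hy hxX.1 hyQ).2)
          · rcases hyX with hyX | hyX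
            · exact Or.inr ⟨hxX, hyX⟩
            · exfalso
              by_cases hxQ : x ∈ Q
              · exact hxX (Or.inr ⟨hxQ, fun hxB => hyX.2 (hcl.1 hxB)⟩)
              · exact hxX (Or.inl (hQ y x hy.symm hyX.1 hxQ).2)
          · rw [fl_same (iff_of_false hxX hyX)] at ht
            exact absurd ht hτ
        · exfalso
          have hτ := h.hτ x y hx
          have ha : a ∉ X := by
            rintro (hh | hh)
            · exact hca hh.symm
            · exact haQ hh.1
          have hb : b ∉ X := by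
            rintro (hh | hh)
            · exact hcb hh.symm
            · exact hh.2 h.bB
          rcases h.un x y hx hy with ⟨rfl, rfl⟩ | ⟨rfl, rfl⟩
          · rw [fl_same (iff_of_false ha hb)] at ht
            exact hτ ht
          · rw [fl_same (iff_of_false hb ha)] at ht
            exact hτ ht
      · exfalso
        have hy : G1.Adj x y := by
          rcases hxy with h' | h'
          · exact absurd h' hx
          · exact h'
        have hcX : c ∈ X := Or.inl rfl
        have hdX : d ∉ X := by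
          rintro (hh | hh)
          · exact hcd hh.symm
          · exact hh.2 h.dB
        have hτcd := h.hτcd
        rcases h.un' x y hy hx with ⟨rfl, rfl⟩ | ⟨rfl, rfl⟩
        · rw [fl_diff hcX hdX] at ht
          exact ht hτcd
        · rw [fl_diff' hdX hcX] at ht
          exact ht hτcd.symm
    refine ⟨fl X τ, ?_, ?_, ?_⟩
    · intro x y hxy ht
      obtain ⟨h0, h1, h2⟩ := key x y hxy ht
      refine ⟨?_, h1⟩
      rcases h2 with ⟨rfl, _⟩ | ⟨_, rfl⟩
      · exact hs _ h0 h1
      · exact (hs _ h0.symm h1.symm).symm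
    · refine ⟨c, ?_⟩
      intro x y hxy ht
      obtain ⟨_, _, h2⟩ := key x y (Or.inr hxy) ht
      tauto
    · intro hbad u v huv huv' ht x y hxy ht'
      exfalso
      obtain ⟨h0, _, h3⟩ := key u v (Or.inr huv) ht
      rcases h3 with ⟨rfl, h3⟩ | ⟨h3, rfl⟩
      · obtain ⟨hvQ, hvw⟩ := hfut hbad u v huv huv' h0 rfl
        apply h3
        refine Or.inr ⟨hvQ, fun hvB => ?_⟩
        exact h.cB ((h.cl u v h0 huv).2 hvB)
      · obtain ⟨hvQ, hvw⟩ := hfut hbad v u huv.symm (fun hh => huv' hh.symm) h0.symm rfl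
        apply h3
        refine Or.inr ⟨hvQ, fun hvB => ?_⟩
        exact h.cB ((h.cl v u h0.symm huv.symm).2 hvB)

/-- The construction with the vertex `a`. -/
lemma step_a {G0 G1 G2 : SimpleGraph V} (hB1 : Bip G1) (hB2 : Bip G2) (h12 : One G1 G2)
    (h21 : One G2 G1) {a b c d : V} {τ : V → Bool} {B : Set V} (h : Bad G0 G1 a b c d τ B)
    (s : V → Bool) (hs : ∀ p, G0.Adj a p → G1.Adj a p → s a ≠ s p) :
    ∃ t, Next G0 G1 G2 s t := by
  obtain ⟨Q, w, haQ, hQ, hfut⟩ := exists_Q (G0 := G0) hB1 hB2 h12 h21 a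
  have hca : c ≠ a := by
    rintro rfl
    exact h.hac rfl
  by_cases hcQ : c ∈ Q
  · let X : Set V := {v | v ∈ B ∨ v ∉ Q}
    have key : ∀ x y, (G0 ⊔ G1).Adj x y → fl X τ x = fl X τ y →
        G0.Adj x y ∧ G1.Adj x y ∧ ((x = a ∧ y = w) ∨ (x = w ∧ y = a)) := by
      intro x y hxy ht
      by_cases hx : G0.Adj x y
      · by_cases hy : G1.Adj x y
        · refine ⟨hx, hy, ?_⟩
          have hcl := h.cl x y hx hy
          have hτ := h.hτ x y hx
          by_cases hxX : x ∈ X <;> by_cases hyX : y ∈ X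
          · rw [fl_same (iff_of_true hxX hyX)] at ht
            exact absurd ht hτ
          · have hyB : y ∉ B := fun hh => hyX (Or.inl hh)
            have hyQ : y ∈ Q := by
              by_contra hyQ
              exact hyX (Or.inr hyQ)
            have hxQ : x ∉ Q := by
              rcases hxX with hh | hh
              · exact absurd (hcl.1 hh) hyB
              · exact hh
            have := hQ y x hy.symm hyQ hxQ
            tauto
          · have hxB : x ∉ B := fun hh => hxX (Or.inl hh)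
            have hxQ : x ∈ Q := by
              by_contra hxQ
              exact hxX (Or.inr hxQ)
            have hyQ : y ∉ Q := by
              rcases hyX with hh | hh
              · exact absurd (hcl.2 hh) hxB
              · exact hh
            have := hQ x y hy hxQ hyQ
            tauto
          · rw [fl_same (iff_of_false hxX hyX)] at ht
            exact absurd ht hτ
        · exfalso
          have hτ := h.hτ x y hx
          have ha : a ∈ X := Or.inr haQ
          have hb : b ∈ X := Or.inl h.bB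
          rcases h.un x y hx hy with ⟨rfl, rfl⟩ | ⟨rfl, rfl⟩
          · rw [fl_same (iff_of_true ha hb)] at ht
            exact hτ ht
          · rw [fl_same (iff_of_true hb ha)] at ht
            exact hτ ht
      · exfalso
        have hy : G1.Adj x y := by
          rcases hxy with h' | h'
          · exact absurd h' hx
          · exact h'
        have hcX : c ∉ X := by
          rintro (hh | hh)
          · exact h.cB hh
          · exact hh hcQ
        have hdX : d ∈ X := Or.inl h.dB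
        have hτcd := h.hτcd
        rcases h.un' x y hy hx with ⟨rfl, rfl⟩ | ⟨rfl, rfl⟩
        · rw [fl_diff' hcX hdX] at ht
          exact ht hτcd
        · rw [fl_diff hdX hcX] at ht
          exact ht hτcd.symm
    refine ⟨fl X τ, ?_, ?_, ?_⟩
    · intro x y hxy ht
      obtain ⟨h0, h1, h2⟩ := key x y hxy ht
      refine ⟨?_, h1⟩
      rcases h2 with ⟨rfl, rfl⟩ | ⟨rfl, rfl⟩
      · exact hs _ h0 h1
      · exact (hs _ h0.symm h1.symm).symm
    · refine ⟨a, ?_⟩
      intro x y hxy ht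
      obtain ⟨_, _, h2⟩ := key x y (Or.inr hxy) ht
      tauto
    · intro _ u v huv _ ht x y hxy ht'
      obtain ⟨_, _, h2⟩ := key x y (Or.inr hxy) ht'
      obtain ⟨_, _, h3⟩ := key u v (Or.inr huv) ht
      rcases h2 with ⟨rfl, rfl⟩ | ⟨rfl, rfl⟩ <;> rcases h3 with ⟨rfl, rfl⟩ | ⟨rfl, rfl⟩ <;> tauto
  · let X : Set V := {v | v = a ∨ v ∈ B ∨ v ∈ Q}
    have key : ∀ x y, (G0 ⊔ G1).Adj x y → fl X τ x = fl X τ y →
        G0.Adj x y ∧ G1.Adj x y ∧ ((x = a ∧ y ∉ X) ∨ (x ∉ X ∧ y = a)) := by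
      intro x y hxy ht
      by_cases hx : G0.Adj x y
      · by_cases hy : G1.Adj x y
        · refine ⟨hx, hy, ?_⟩
          have hcl := h.cl x y hx hy
          have hτ := h.hτ x y hx
          by_cases hxX : x ∈ X <;> by_cases hyX : y ∈ X
          · rw [fl_same (iff_of_true hxX hyX)] at ht
            exact absurd ht hτ
          · rcases hxX with hxX | hxX | hxX
            · exact Or.inl ⟨hxX, hyX⟩
            · exact absurd (Or.inr (Or.inl (hcl.1 hxX))) hyX
            · exfalso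
              by_cases hyQ : y ∈ Q
              · exact hyX (Or.inr (Or.inr hyQ))
              · exact hyX (Or.inl (hQ x y hy hxX hyQ).2)
          · rcases hyX with hyX | hyX | hyX
            · exact Or.inr ⟨hxX, hyX⟩
            · exact absurd (Or.inr (Or.inl (hcl.2 hyX))) hxX
            · exfalso
              by_cases hxQ : x ∈ Q
              · exact hxX (Or.inr (Or.inr hxQ))
              · exact hxX (Or.inl (hQ y x hy.symm hyX hxQ).2)
          · rw [fl_same (iff_of_false hxX hyX)] at ht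
            exact absurd ht hτ
        · exfalso
          have hτ := h.hτ x y hx
          have ha : a ∈ X := Or.inl rfl
          have hb : b ∈ X := Or.inr (Or.inl h.bB)
          rcases h.un x y hx hy with ⟨rfl, rfl⟩ | ⟨rfl, rfl⟩
          · rw [fl_same (iff_of_true ha hb)] at ht
            exact hτ ht
          · rw [fl_same (iff_of_true hb ha)] at ht
            exact hτ ht
      · exfalso
        have hy : G1.Adj x y := by
          rcases hxy with h' | h'
          · exact absurd h' hx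
          · exact h'
        have hcX : c ∉ X := by
          rintro (hh | hh | hh)
          · exact hca hh
          · exact h.cB hh
          · exact hcQ hh
        have hdX : d ∈ X := Or.inr (Or.inl h.dB)
        have hτcd := h.hτcd
        rcases h.un' x y hy hx with ⟨rfl, rfl⟩ | ⟨rfl, rfl⟩
        · rw [fl_diff' hcX hdX] at ht
          exact ht hτcd
        · rw [fl_diff hdX hcX] at ht
          exact ht hτcd.symm
    refine ⟨fl X τ, ?_, ?_, ?_⟩
    · intro x y hxy ht
      obtain ⟨h0, h1, h2⟩ := key x y hxy ht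
      refine ⟨?_, h1⟩
      rcases h2 with ⟨rfl, _⟩ | ⟨_, rfl⟩
      · exact hs _ h0 h1
      · exact (hs _ h0.symm h1.symm).symm
    · refine ⟨a, ?_⟩
      intro x y hxy ht
      obtain ⟨_, _, h2⟩ := key x y (Or.inr hxy) ht
      tauto
    · intro hbad u v huv huv' ht x y hxy ht'
      exfalso
      obtain ⟨h0, _, h3⟩ := key u v (Or.inr huv) ht
      rcases h3 with ⟨rfl, h3⟩ | ⟨h3, rfl⟩
      · obtain ⟨hvQ, hvw⟩ := hfut hbad u v huv huv' h0 rfl
        exact h3 (Or.inr (Or.inr hvQ))
      · obtain ⟨hvQ, hvw⟩ := hfut hbad v u huv.symm (fun hh => huv' hh.symm) h0.symm rfl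
        exact h3 (Or.inr (Or.inr hvQ))

/-- The step: from `s` to `t`. -/
lemma step [Nonempty V] {G0 G1 G2 : SimpleGraph V} (hB0 : Bip G0) (hB1 : Bip G1) (hB2 : Bip G2)
    (h01 : One G0 G1) (h10 : One G1 G0) (h12 : One G1 G2) (h21 : One G2 G1) (s : V → Bool)
    (hcen : ∃ z, ∀ x y, G0.Adj x y → s x = s y → x = z ∨ y = z)
    (hfut : ¬ Bip (G0 ⊔ G1) → ∀ u v, G0.Adj u v → ¬ G1.Adj u v → s u = s v →
      ∀ x y, G0.Adj x y → s x = s y → (x = u ∧ y = v) ∨ (x = v ∧ y = u)) :
    ∃ t, Next G0 G1 G2 s t := by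
  by_cases hbad : Bip (G0 ⊔ G1)
  · obtain ⟨t, ht⟩ := hbad
    refine ⟨t, ?_, ?_, ?_⟩
    · intro x y hxy h
      exact absurd h (ht x y hxy)
    · refine ⟨Classical.arbitrary V, fun x y hxy h => ?_⟩
      exact absurd h (ht x y (Or.inr hxy))
    · intro _ u v huv _ h
      exact absurd h (ht u v (Or.inr huv))
  obtain ⟨a, b, c, d, τ, B, h⟩ := exists_bad hB0 hB1 h01 h10 hbad
  by_cases hsa : ∀ p, G0.Adj a p → G1.Adj a p → s a ≠ s p
  · exact step_a hB1 hB2 h12 h21 h s hsa
  by_cases hsc : ∀ p, G0.Adj c p → G1.Adj c p → s c ≠ s p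
  · exact step_c hB1 hB2 h12 h21 h s hsc
  push Not at hsa hsc
  obtain ⟨p, hp0, hp1, hp2⟩ := hsa
  obtain ⟨q, hq0, hq1, hq2⟩ := hsc
  obtain ⟨z, hz⟩ := hcen
  have hca : c ≠ a := by
    rintro rfl
    exact h.hac rfl
  have hcb : c ≠ b := by
    rintro rfl
    exact h.cB h.bB
  -- `ac` is a violated edge
  have hac : G0.Adj a c ∧ G1.Adj a c ∧ s a = s c ∧ (z = a ∨ z = c) := by
    rcases hz a p hp0 hp2 with h1 | h1 <;> rcases hz c q hq0 hq2 with h2 | h2
    · exact absurd (h2.trans h1.symm) hca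
    · have : q = a := h2.trans h1.symm
      subst this
      exact ⟨hq0.symm, hq1.symm, hq2.symm, Or.inl h1.symm⟩
    · have : p = c := h1.trans h2.symm
      subst this
      exact ⟨hp0, hp1, hp2, Or.inr h2.symm⟩
    · exfalso
      have : p = q := h1.trans h2.symm
      subst this
      have h3 := h.hτ a p hp0
      have h4 := h.hτ c p hq0
      have h5 := h.hac
      revert h3 h4 h5
      cases τ a <;> cases τ c <;> cases τ p <;> simp
  obtain ⟨hac0, hac1, hac2, hzac⟩ := hac
  -- `ab` is not violated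
  have hab : s a ≠ s b := by
    intro hab
    have := hfut hbad a b h.hab h.hab' hab a c hac0 hac2
    rcases this with ⟨_, h1⟩ | ⟨h1, h2⟩
    · exact hcb h1
    · exact hca h2
  -- nothing is violated inside `B`
  have hzB : z ∉ B := by
    rcases hzac with rfl | rfl
    · exact h.aB
    · exact h.cB
  have hd : xor (s d) (τ d) = xor (s b) (τ b) := by
    refine h.conn hbad {v | xor (s v) (τ v) = xor (s b) (τ b)} ?_ rfl
    intro x y hx hy hxB hyB
    have h1 : s x ≠ s y := by
      intro h1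
      rcases hz x y hx h1 with rfl | rfl
      · exact hzB hxB
      · exact hzB hyB
    have h2 := h.hτ x y hx
    have h3 : xor (s x) (τ x) = xor (s y) (τ y) := by
      revert h1 h2
      cases s x <;> cases s y <;> cases τ x <;> cases τ y <;> simp
    simp only [Set.mem_ofPred_eq, h3]
  have hcd : s c ≠ s d := by
    have e1 := h.hτcd
    have e2 := h.hτ a b h.hab
    have e3 := h.hac
    revert hd hab hac2 e1 e2 e3
    cases s a <;> cases s b <;> cases s c <;> cases s d <;> cases τ a <;> cases τ b <;>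
      cases τ c <;> cases τ d <;> simp
  have key : ∀ x y, (G0 ⊔ G1).Adj x y → τ x = τ y →
      G1.Adj x y ∧ ((x = c ∧ y = d) ∨ (x = d ∧ y = c)) := by
    intro x y hxy ht
    have hx : ¬ G0.Adj x y := fun hh => h.hτ x y hh ht
    have hy : G1.Adj x y := by
      rcases hxy with h' | h'
      · exact absurd h' hx
      · exact h'
    exact ⟨hy, h.un' x y hy hx⟩
  refine ⟨τ, ?_, ?_, ?_⟩
  · intro x y hxy ht
    obtain ⟨h1, ⟨rfl, rfl⟩ | ⟨rfl, rfl⟩⟩ := key x y hxy ht
    · exact ⟨hcd, h1⟩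
    · exact ⟨hcd.symm, h1⟩
  · refine ⟨c, fun x y hxy ht => ?_⟩
    obtain ⟨_, h2⟩ := key x y (Or.inr hxy) ht
    tauto
  · intro _ u v huv _ ht x y hxy ht'
    obtain ⟨_, h2⟩ := key x y (Or.inr hxy) ht'
    obtain ⟨_, h3⟩ := key u v (Or.inr huv) ht
    rcases h2 with ⟨rfl, rfl⟩ | ⟨rfl, rfl⟩ <;> rcases h3 with ⟨rfl, rfl⟩ | ⟨rfl, rfl⟩ <;> tauto

/-! ### The sequence -/

/-- what is known about `σ_{j-1} = p` and `σ_j = s` -/
structure Inv (G : ℕ → SimpleGraph V) (j : ℕ) (p s : V → Bool) : Prop where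
  sep : ∀ x y, (G j ⊔ G (j + 1)).Adj x y → s x = s y → p x ≠ p y ∧ (G (j + 1)).Adj x y
  cen : ∃ z, ∀ x y, (G (j + 1)).Adj x y → s x = s y → x = z ∨ y = z
  fut : ¬ Bip (G (j + 1) ⊔ G (j + 2)) → ∀ u v, (G (j + 1)).Adj u v → ¬ (G (j + 2)).Adj u v →
    s u = s v → ∀ x y, (G (j + 1)).Adj x y → s x = s y → (x = u ∧ y = v) ∨ (x = v ∧ y = u)

/-- agreement of `σ_{j-1} = p` and `σ_{j+1} = t` on the ends of the edges violated by `σ_j = s` -/
def Agree (G : ℕ → SimpleGraph V) (j : ℕ) (p s t : V → Bool) : Prop :=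
  ∀ x y, (G j ⊔ G (j + 1)).Adj x y → s x = s y → p x = t x ∧ p y = t y

lemma Next.flip {G0 G1 G2 : SimpleGraph V} {s t : V → Bool} (h : Next G0 G1 G2 s t) :
    Next G0 G1 G2 s (fun v => !t v) := by
  have key : ∀ x y, (!t x) = (!t y) ↔ t x = t y := by
    intro x y
    cases t x <;> cases t y <;> simp
  refine ⟨?_, ?_, ?_⟩
  · intro x y hxy ht
    exact h.sep x y hxy ((key x y).1 ht)
  · obtain ⟨z, hz⟩ := h.cen
    exact ⟨z, fun x y hxy ht => hz x y hxy ((key x y).1 ht)⟩
  · intro hb u v huv huv' ht x y hxy ht'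
    exact h.fut hb u v huv huv' ((key u v).1 ht) x y hxy ((key x y).1 ht')

lemma inv_step [Nonempty V] {G : ℕ → SimpleGraph V} (hB : ∀ j, Bip (G j))
    (h1 : ∀ j, One (G j) (G (j + 1))) (h2 : ∀ j, One (G (j + 1)) (G j)) (j : ℕ) (p s : V → Bool)
    (h : Inv G j p s) : ∃ t, Inv G (j + 1) s t ∧ Agree G j p s t := by
  obtain ⟨t, ht⟩ := step (hB (j + 1)) (hB (j + 2)) (hB (j + 3)) (h1 (j + 1)) (h2 (j + 1))
    (h1 (j + 2)) (h2 (j + 2)) s h.cen h.fut
  obtain ⟨z, hz⟩ := h.cen
  -- choose the orientation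
  obtain ⟨t, ht, htz⟩ : ∃ t, Next (G (j + 1)) (G (j + 2)) (G (j + 3)) s t ∧ t z = p z := by
    by_cases hh : t z = p z
    · exact ⟨t, ht, hh⟩
    · refine ⟨fun v => !t v, ht.flip, ?_⟩
      beta_reduce
      revert hh
      generalize t z = u
      generalize p z = v
      cases u <;> cases v <;> simp
  refine ⟨t, ⟨ht.sep, ht.cen, ht.fut⟩, ?_⟩
  intro x y hxy hs
  obtain ⟨hp, hG1⟩ := h.sep x y hxy hs
  have htxy : t x ≠ t y := by
    intro hcon
    exact (ht.sep x y (Or.inl hG1) hcon).1 hs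
  rcases hz x y hG1 hs with rfl | rfl
  · refine ⟨htz.symm, ?_⟩
    revert hp htxy htz
    cases p x <;> cases p y <;> cases t x <;> cases t y <;> simp
  · refine ⟨?_, htz.symm⟩
    revert hp htxy htz
    cases p x <;> cases p y <;> cases t x <;> cases t y <;> simp

/-- The sequence `σ`; `σ (j + 1)` belongs to the pair `G j, G (j + 1)`. -/
lemma exists_sigma [Nonempty V] {G : ℕ → SimpleGraph V} (hB : ∀ j, Bip (G j))
    (h1 : ∀ j, One (G j) (G (j + 1))) (h2 : ∀ j, One (G (j + 1)) (G j)) (h01 : G 0 = G 1) :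
    ∃ σ : ℕ → V → Bool, ∀ j, Inv G j (σ j) (σ (j + 1)) ∧ Agree G j (σ j) (σ (j + 1)) (σ (j + 2)) := by
  obtain ⟨τ, hτ⟩ := hB 1
  have hinit : Inv G 0 τ τ := by
    refine ⟨?_, ?_, ?_⟩
    · intro x y hxy h
      rw [h01, sup_idem] at hxy
      exact absurd h (hτ x y hxy)
    · exact ⟨Classical.arbitrary V, fun x y hxy h => absurd h (hτ x y hxy)⟩
    · intro _ u v huv _ h
      exact absurd h (hτ u v huv)
  choose! nx hnx using inv_step hB h1 h2
  let f : ℕ → (V → Bool) × (V → Bool) := fun j =>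
    Nat.rec (τ, τ) (fun j ps => (ps.2, nx j ps.1 ps.2)) j
  have hf0 : f 0 = (τ, τ) := rfl
  have hfs : ∀ j, f (j + 1) = ((f j).2, nx j (f j).1 (f j).2) := fun j => rfl
  have hinv : ∀ j, Inv G j (f j).1 (f j).2 := by
    intro j
    induction j with
    | zero => exact hinit
    | succ j ih =>
      rw [hfs]
      exact (hnx j _ _ ih).1
  refine ⟨fun j => (f j).1, fun j => ?_⟩
  have e1 : (f (j + 1)).1 = (f j).2 := by rw [hfs]
  have e2 : (f (j + 2)).1 = nx j (f j).1 (f j).2 := by rw [hfs (j + 1), hfs j]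
  beta_reduce
  rw [e1, e2]
  exact ⟨hinv j, (hnx j _ _ (hinv j)).2⟩

/-- the colour with two given coordinates -/
def pr (x y : Bool) : Fin 4 := ⟨2 * x.toNat + y.toNat, by cases x <;> cases y <;> decide⟩

lemma pr_inj {x y x' y' : Bool} (h : pr x y = pr x' y') : x = x' ∧ y = y' := by
  revert h
  cases x <;> cases y <;> cases x' <;> cases y' <;> decide

/-- the colouring -/
def col (σ : ℕ → V → Bool) (j : ℕ) (v : V) : Fin 4 :=
  if j % 2 = 0 then pr (σ j v) (σ (j + 1) v) else pr (σ (j + 1) v) (σ j v)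

lemma col_same {σ : ℕ → V → Bool} {j : ℕ} {x y : V} (h : col σ j x = col σ j y) :
    σ j x = σ j y ∧ σ (j + 1) x = σ (j + 1) y := by
  unfold col at h
  split_ifs at h
  · exact pr_inj h
  · exact (pr_inj h).symm

lemma col_next {σ : ℕ → V → Bool} {j : ℕ} {x y : V} (h : col σ j x = col σ (j + 1) y) :
    σ j x = σ (j + 2) y ∧ σ (j + 1) x = σ (j + 1) y := by
  unfold col at h
  by_cases hj : j % 2 = 0
  · rw [if_pos hj, if_neg (by omega)] at h
    exact pr_inj h
  · rw [if_neg hj, if_pos (by omega)] at h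
    exact (pr_inj h).symm

/-- The result for infinite sequences. -/
lemma infinite [Nonempty V] {G : ℕ → SimpleGraph V} (hB : ∀ j, Bip (G j))
    (h1 : ∀ j, One (G j) (G (j + 1))) (h2 : ∀ j, One (G (j + 1)) (G j)) (h01 : G 0 = G 1) :
    ∃ c : ℕ → V → Fin 4, ∀ j, Compatible (G j) (G (j + 1)) (c j) (c (j + 1)) := by
  obtain ⟨σ, hσ⟩ := exists_sigma hB h1 h2 h01
  refine ⟨col σ, fun j x y hxy => ?_⟩
  obtain ⟨hinv, hag⟩ := hσ j
  have hsep := hinv.sep x y hxy
  have hagr := hag x y hxy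
  refine ⟨?_, ?_, ?_, ?_⟩
  · intro h
    obtain ⟨e1, e2⟩ := col_same h
    exact (hsep e2).1 e1
  · intro h
    obtain ⟨e1, e2⟩ := col_next h
    obtain ⟨a1, a2⟩ := hagr e2
    exact (hsep e2).1 (e1.trans a2.symm)
  · intro h
    obtain ⟨e1, e2⟩ := col_next h.symm
    obtain ⟨a1, a2⟩ := hagr e2.symm
    exact (hsep e2.symm).1 (a1.trans e1.symm)
  · intro h
    obtain ⟨e1, e2⟩ := col_same h
    obtain ⟨a1, a2⟩ := hagr e1
    exact (hsep e1).1 (a1.trans (e2.trans a2.symm))

/-! ### The result -/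

lemma one_of_ncard [Finite V] {G G' : SimpleGraph V} (h : (G.edgeSet \ G'.edgeSet).ncard ≤ 1) :
    One G G' := by
  intro x y x' y' h1 h2 h3 h4
  have e1 : s(x, y) ∈ G.edgeSet \ G'.edgeSet := ⟨h1, h2⟩
  have e2 : s(x', y') ∈ G.edgeSet \ G'.edgeSet := ⟨h3, h4⟩
  have := (Set.ncard_le_one (Set.toFinite _)).1 h _ e1 _ e2
  rw [Sym2.eq_iff] at this
  exact this

lemma bip_of_colorable {G : SimpleGraph V} (h : G.Colorable 2) : Bip G := by
  obtain ⟨C⟩ := h
  refine ⟨fun v => decide (C v = 0), fun x y hxy => ?_⟩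
  have h1 := C.valid hxy
  intro h2
  apply h1
  rw [decide_eq_decide] at h2
  generalize C x = u at h2 ⊢
  generalize C y = v at h2 ⊢
  revert h2
  fin_cases u <;> fin_cases v <;> simp

/-- **Result** (answer to Q1 of MP_4e4764_co: yes). Every temporal graph with grow pace 1, all of
whose snapshots are bipartite, has a temporal 4-colouring. -/
theorem result {V : Type} [Finite V] (T : ℕ) (G : ℕ → SimpleGraph V) (hpace : GrowPaceOne T G)
    (hbip : ∀ j, j < T → (G j).Colorable 2) :
    ∃ c : ℕ → V → Fin 4, IsTemporalColouring T 4 G c := by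
  rcases Nat.eq_zero_or_pos T with rfl | hT
  · exact ⟨fun _ _ => 0, fun j hj => by omega, fun j hj => by omega⟩
  rcases isEmpty_or_nonempty V with hV | hV
  · exact ⟨fun _ _ => 0, fun j _ x => hV.elim x, fun j _ x => hV.elim x⟩
  let G' : ℕ → SimpleGraph V := fun j => G (min (j - 1) (T - 1))
  have hone : ∀ G : SimpleGraph V, One G G := fun G x y _ _ h h' => absurd h h'
  have hstep : ∀ j, One (G' j) (G' (j + 1)) ∧ One (G' (j + 1)) (G' j) := by
    intro j
    by_cases h : min (j + 1 - 1) (T - 1) = min (j - 1) (T - 1)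
    · have : G' (j + 1) = G' j := by
        simp only [G', h]
      rw [this]
      exact ⟨hone _, hone _⟩
    · have h1 : min (j - 1) (T - 1) = j - 1 := by omega
      have h2 : min (j + 1 - 1) (T - 1) = j - 1 + 1 := by omega
      have h3 : j - 1 + 1 < T := by omega
      have h4 := hpace (j - 1) h3
      simp only [G', h1, h2]
      exact ⟨one_of_ncard h4.2, one_of_ncard h4.1⟩
  obtain ⟨c, hc⟩ := infinite (G := G')
    (fun j => bip_of_colorable (hbip _ (by omega)))
    (fun j => (hstep j).1) (fun j => (hstep j).2) rfl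
  have hG' : ∀ j, j < T → G' (j + 1) = G j := by
    intro j hj
    have : min (j + 1 - 1) (T - 1) = j := by omega
    simp only [G', this]
  refine ⟨fun j => c (j + 1), ?_, ?_⟩
  · intro j hj x y hxy
    have h1 := hc (j + 1) x y (Or.inl (by rw [hG' j hj]; exact hxy))
    exact h1.1
  · intro j hj
    have h1 := hc (j + 1)
    rw [hG' j (by omega), hG' (j + 1) hj] at h1
    exact h1

end Pool.Agent.Results.MP_4e4764_co.FourColours
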